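import Pool.Agent.Q145.HQ.Stm
import Pool.Agent.Q145.LQ.Exq
import Pool.Agent.Q124.LQ.Prq
import Pool.Agent.Q177.LQ.NOK
import Pool.Agent.Q68.LQ.TAU

/-!
# Project HQ (helper145), job EXL: the exceptional pairs for the Liouville function
-/

set_option autoImplicit false

namespace Pool.Agent.Q145.HQ

open Finset Filter
open Pool.Agent.Q145.SZ Pool.Agent.Q145.LQ Pool.Agent.Q145.HC

open Classical in
lemma exl_le {L : ℕ} (Y : ℕ) (f : Fin L → Polynomial ℤ) (D : Fin L → Finset ℕ) :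
    ((exl Y f D).card : ℝ) ≤
      ((((Ioc Y (2 * Y)) ×ˢ (Ioc Y (2 * Y))).filter fun x : ℕ × ℕ => ¬ okp f x.1 x.2).card : ℝ) +
      ∑ i, (((((Ioc Y (2 * Y)) ×ˢ (Ioc Y (2 * Y))).filter
        fun x : ℕ × ℕ => dst (vq (f i) x.1) (vq (f i) x.2) ∈ D i).card : ℕ) : ℝ) := by
  have h : exl Y f D ⊆ (((Ioc Y (2 * Y)) ×ˢ (Ioc Y (2 * Y))).filter
      fun x : ℕ × ℕ => ¬ okp f x.1 x.2) ∪
      univ.biUnion fun i => ((Ioc Y (2 * Y)) ×ˢ (Ioc Y (2 * Y))).filter
        fun x : ℕ × ℕ => dst (vq (f i) x.1) (vq (f i) x.2) ∈ D i := by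
    intro x hx
    unfold exl at hx
    rw [mem_filter] at hx
    rw [mem_union, mem_filter, mem_biUnion]
    rcases hx with ⟨h1, h2 | ⟨i, hi⟩⟩
    · exact Or.inl ⟨h1, h2⟩
    · exact Or.inr ⟨i, mem_univ i, mem_filter.2 ⟨h1, hi⟩⟩
  have h2 := (card_le_card h).trans ((card_union_le _ _).trans (Nat.add_le_add_left card_biUnion_le _))
  exact_mod_cast h2

/-- pairs of values of a linear polynomial with given differences -/
lemma lin_pairs (Y : ℕ) (f : Polynomial ℤ) (D : Finset ℕ) (hf : f.natDegree = 1)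
    (hpos : ∀ n ∈ Ioc Y (2 * Y), 0 ≤ f.eval (n : ℤ)) :
    ((((Ioc Y (2 * Y)) ×ˢ (Ioc Y (2 * Y))).filter
      fun x : ℕ × ℕ => dst (vq f x.1) (vq f x.2) ∈ D).card : ℕ) ≤ Y * (D.card * 2) := by
  obtain ⟨a, ha, b, hab⟩ := Polynomial.natDegree_eq_one.1 hf
  have hev : ∀ n : ℕ, f.eval (n : ℤ) = a * n + b := by
    intro n
    rw [← hab]
    simp
  have hT : ((Ioc Y (2 * Y)) ×ˢ (D ×ˢ (univ : Finset Bool))).card = Y * (D.card * 2) := by
    rw [card_product, card_product, Nat.card_Ioc, card_univ, Fintype.card_bool]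
    congr 1
    omega
  rw [← hT]
  refine card_le_card_of_injOn
    (fun x : ℕ × ℕ => (x.1, (dst (vq f x.1) (vq f x.2), decide (vq f x.1 ≤ vq f x.2)))) ?_ ?_
  · intro x hx
    rw [mem_coe, mem_filter, mem_product] at hx
    rw [mem_coe, mem_product, mem_product]
    exact ⟨hx.1.1, hx.2, mem_univ _⟩
  · rintro ⟨n, m⟩ hx ⟨n', m'⟩ hx' he
    rw [mem_coe, mem_filter, mem_product] at hx hx'
    simp only [Prod.mk.injEq] at he hx hx'
    obtain ⟨h1, h2, h3⟩ := he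
    subst h1
    have h4 : vq f n ≤ vq f m ↔ vq f n ≤ vq f m' := decide_eq_decide.1 h3
    have h5 : vq f m = vq f m' := by
      unfold dst at h2
      omega
    have h6 : f.eval (m : ℤ) = f.eval (m' : ℤ) := by
      have g1 := Int.toNat_of_nonneg (hpos m hx.1.2)
      have g2 := Int.toNat_of_nonneg (hpos m' hx'.1.2)
      have g3 : (f.eval (m : ℤ)).toNat = (f.eval (m' : ℤ)).toNat := h5
      rw [← g1, ← g2, g3]
    rw [hev, hev] at h6
    have h7 : (m : ℤ) = m' := mul_left_cancel₀ ha (by linarith)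
    have h8 : m = m' := by exact_mod_cast h7
    rw [h8]

open Classical in
/-- **EXL**: the exceptional pairs -/
theorem t_EXL : S_EXL := by
  intro a
  obtain ⟨Ct, hCt, ht⟩ := t_TAU
  obtain ⟨z₁, hz₁⟩ := Pool.Agent.Q111.SZ.t_PWB.2
  set M : ℝ := 64 * (a + 1) + 64 * Ct + z₁ with hM
  have p1 : (0 : ℝ) ≤ a := by positivity
  have p2 : (0 : ℝ) ≤ z₁ := by positivity
  have hM64 : 64 ≤ M := by linarith
  refine ⟨M, hM64, ?_⟩
  intro z Y L G f D hX hz hzY hL hA hD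
  obtain ⟨hL0, hLM, hzM, hzL, hzl, hXe, hLe, hl1, hlL⟩ :=
    elem (C := 64) (M := M) le_rfl (by linarith) hX hz hzY
  set Λ := Real.log (Y : ℝ) with hΛ
  set l := Real.log Λ with hl
  have hz0 : (0 : ℝ) < z := by linarith
  have hY0 : (0 : ℝ) < Y := by rw [hXe]; exact Real.exp_pos _
  have hY1 : 1 ≤ Y := by exact_mod_cast hY0
  have hz1 : z₁ ≤ z := by
    have : (z₁ : ℝ) ≤ z := by linarith
    exact_mod_cast this
  have hW := hz₁ z hz1
  have hW1 := one_le_PW z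
  have hWu := PW_le Pool.Agent.Q111.SZ.t_PWB z
  set W : ℝ := (PW z : ℝ) with hWd
  have hW0 : 0 < W := by linarith
  have hL1 : 1 ≤ Λ := by linarith
  have hzΛ : (z : ℝ) ≤ Λ := by linarith
  have hLW : Λ ^ 32 ≤ W := by
    calc Λ ^ 32 = Real.exp (32 * l) := by
          rw [hLe, show (32 : ℝ) = ((32 : ℕ) : ℝ) by norm_num, Real.exp_nat_mul]
      _ ≤ Real.exp ((z : ℝ) / 2) := Real.exp_le_exp.2 (by linarith)
      _ ≤ W := hW
  have hΛW : Λ ≤ W := (le_self_pow₀ hL1 (by norm_num)).trans hLW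
  have hW2 : 2 ≤ W := by linarith
  have hpos : ∀ i, ∀ n ∈ Ioc Y (2 * Y), 0 ≤ (f i).eval (n : ℤ) := by
    intro i n hn
    have h1 := (hA.val i n hn).1
    have h2 : (0 : ℤ) ≤ (G i : ℤ) := by positivity
    linarith
  -- the pairs with equal values
  have hnok := Pool.Agent.Q177.LQ.t_NOK 2 Y L f (fun i => by
    rcases hA.deg i with h | h <;> omega) hpos
  have hYL : Λ * Real.exp (Λ / 2) ≤ Y := by
    have h1 := Real.quadratic_le_exp_of_nonneg (x := Λ / 2) (by linarith)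
    have h2 : Λ ≤ Real.exp (Λ / 2) := by nlinarith
    calc Λ * Real.exp (Λ / 2) ≤ Real.exp (Λ / 2) * Real.exp (Λ / 2) := by gcongr
      _ = Real.exp Λ := by rw [← Real.exp_add]; congr 1; ring
      _ = Y := hXe.symm
  have hWa : W ^ (2 * a) ≤ Real.exp (Λ / 2) := by
    calc W ^ (2 * a) ≤ Real.exp (2 * z) ^ (2 * a) := pow_le_pow_left₀ hW0.le hWu _
      _ = Real.exp ((2 * a : ℕ) * (2 * z)) := (Real.exp_nat_mul _ _).symm
      _ ≤ Real.exp (Λ / 2) := by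
        apply Real.exp_le_exp.2
        push_cast
        have h1 : 64 * ((a : ℝ) + 1) ≤ l := by linarith
        nlinarith [mul_nonneg p1 hz0.le, mul_le_mul_of_nonneg_left h1 hz0.le]
  have hLr : (L : ℝ) ≤ z := by exact_mod_cast hL
  have part1 : ((((Ioc Y (2 * Y)) ×ˢ (Ioc Y (2 * Y))).filter
      fun x : ℕ × ℕ => ¬ okp f x.1 x.2).card : ℝ) ≤ (Y : ℝ) ^ 2 / W ^ (2 * a) / 3 := by
    refine hnok.trans ?_
    rw [le_div_iff₀ (by norm_num), le_div_iff₀ (by positivity)]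
    have h1 : (1 + (L : ℝ) * (2 : ℕ)) * 3 ≤ Λ := by
      push_cast
      nlinarith
    calc (1 + (L : ℝ) * (2 : ℕ)) * Y * 3 * W ^ (2 * a) = ((1 + (L : ℝ) * (2 : ℕ)) * 3) * W ^ (2 * a) * Y := by ring
      _ ≤ Λ * Real.exp (Λ / 2) * Y := by gcongr
      _ ≤ Y * Y := by gcongr
      _ = (Y : ℝ) ^ 2 := by ring
  -- the exceptional differences
  have key : ∀ i, (((((Ioc Y (2 * Y)) ×ˢ (Ioc Y (2 * Y))).filter
      fun x : ℕ × ℕ => dst (vq (f i) x.1) (vq (f i) x.2) ∈ D i).card : ℕ) : ℝ) ≤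
      Λ ^ 4 * (Y : ℝ) ^ 2 / W ^ (2 * a + 20) := by
    intro i
    have h0 : 0 ∉ D i := fun h => by
      have := (hD i).1 h
      rw [mem_Icc] at this
      omega
    have hDc := (hD i).2
    rw [show 4 * a + 40 = 2 * (2 * a + 20) by ring] at hDc
    obtain ⟨hs1, hs2⟩ := hA.scale i
    rcases hA.deg i with hdeg | hdeg
    · -- linear
      rw [hdeg, pow_one] at hs1 hs2
      have h1 := lin_pairs Y (f i) (D i) hdeg (hpos i)
      have h1' : (((((Ioc Y (2 * Y)) ×ˢ (Ioc Y (2 * Y))).filter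
        fun x : ℕ × ℕ => dst (vq (f i) x.1) (vq (f i) x.2) ∈ D i).card : ℕ) : ℝ) ≤
          Y * ((D i).card * 2) := by exact_mod_cast h1
      have hGle : (G i : ℝ) ≤ z * (Y : ℝ) := by exact_mod_cast hs2
      have hWp : W ^ (2 * a + 20) ≤ W ^ (2 * (2 * a + 20)) := pow_le_pow_right₀ hW1 (by omega)
      calc _ ≤ (Y : ℝ) * ((D i).card * 2) := h1'
        _ ≤ Y * ((G i : ℝ) / W ^ (2 * (2 * a + 20)) * 2) := by gcongr
        _ ≤ Y * ((z * (Y : ℝ)) / W ^ (2 * a + 20) * 2) := by gcongr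
        _ = (z * 2) * (Y : ℝ) ^ 2 / W ^ (2 * a + 20) := by ring
        _ ≤ Λ ^ 4 * (Y : ℝ) ^ 2 / W ^ (2 * a + 20) := by
          gcongr
          have h2 : (z : ℝ) * 2 ≤ Λ := by linarith
          exact h2.trans (le_self_pow₀ hL1 (by norm_num))
    · -- quadratic
      rw [hdeg] at hs1 hs2
      have hZ : ((Y ^ 2 : ℕ) : ℝ) = (Y : ℝ) ^ 2 := by push_cast; ring
      have hGle : (G i : ℝ) ≤ z * (Y : ℝ) ^ 2 := by exact_mod_cast hs2
      have hGge : (Y : ℝ) ^ 2 ≤ G i := by exact_mod_cast hs1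
      have hY3 : (3 : ℝ) ≤ Y := by
        have := Real.add_one_le_exp Λ
        rw [← hXe] at this; linarith
      have hG3 : 3 ≤ G i := by
        have : (3 : ℝ) ≤ G i := by nlinarith
        exact_mod_cast this
      have hlog : Real.log (G i) ≤ 2 * (2 * Λ) := by
        have h1 : Real.log (G i) ≤ Real.log (z * (Y : ℝ) ^ 2) :=
          Real.log_le_log (by nlinarith) hGle
        rw [Real.log_mul hz0.ne' (by positivity), Real.log_pow] at h1
        have h2 : Real.log z ≤ z := (Real.log_le_sub_one_of_pos hz0).trans (by linarith)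
        push_cast at h1
        linarith
      have h1 := t_PRQ Y (f i) (D i) hdeg (hpos i) h0
      have h2 := tau_small (L := 2 * Λ) hCt hW1 hG3 ht (hD i).1 hDc hlog
      calc _ ≤ 4 * ∑ h ∈ D i, (h.divisors.card : ℝ) := h1
        _ ≤ 4 * (4 * Ct * (2 * Λ) ^ 2 * G i / W ^ (2 * a + 20)) := by gcongr
        _ ≤ 4 * (4 * Ct * (2 * Λ) ^ 2 * (z * (Y : ℝ) ^ 2) / W ^ (2 * a + 20)) := by gcongr
        _ = (64 * Ct) * Λ ^ 2 * (z * (Y : ℝ) ^ 2) / W ^ (2 * a + 20) := by ring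
        _ ≤ Λ * Λ ^ 2 * (Λ * (Y : ℝ) ^ 2) / W ^ (2 * a + 20) := by
          gcongr
          linarith
        _ = _ := by ring
  have part2 : ∑ i, (((((Ioc Y (2 * Y)) ×ˢ (Ioc Y (2 * Y))).filter
      fun x : ℕ × ℕ => dst (vq (f i) x.1) (vq (f i) x.2) ∈ D i).card : ℕ) : ℝ) ≤
      (Y : ℝ) ^ 2 / W ^ (2 * a) / 2 := by
    calc _ ≤ ∑ i : Fin L, Λ ^ 4 * (Y : ℝ) ^ 2 / W ^ (2 * a + 20) := sum_le_sum fun i _ => key i
      _ = L * (Λ ^ 4 * (Y : ℝ) ^ 2 / W ^ (2 * a + 20)) := by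
        rw [sum_const, card_univ, Fintype.card_fin, nsmul_eq_mul]
      _ ≤ Λ * (Λ ^ 4 * (Y : ℝ) ^ 2 / W ^ (2 * a + 20)) := by gcongr; linarith
      _ = Λ ^ 5 * ((Y : ℝ) ^ 2 / W ^ (2 * a + 20)) := by ring
      _ ≤ W * ((Y : ℝ) ^ 2 / W ^ (2 * a + 20)) := by
        gcongr
        exact (pow_le_pow_right₀ hL1 (by norm_num)).trans hLW
      _ = (Y : ℝ) ^ 2 / W ^ (2 * a) / W ^ 19 := by
        rw [show 2 * a + 20 = 2 * a + 19 + 1 by ring, pow_add, pow_add]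
        field_simp
      _ ≤ (Y : ℝ) ^ 2 / W ^ (2 * a) / 2 := by
        gcongr
        exact hW2.trans (le_self_pow₀ hW1 (by norm_num))
  have hfin := exl_le Y f D
  have hp : 0 ≤ (Y : ℝ) ^ 2 / W ^ (2 * a) := by positivity
  linarith

end Pool.Agent.Q145.HQ
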